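import Pool.Agent.H34.L.Y491.ID.Word
import Pool.Agent.H34.L.Y491.ID.Binom

/-!
# Exchanging letters at pairs of positions
-/

set_option autoImplicit false
set_option linter.unusedSectionVars false

open Finset
open scoped Classical

namespace Pool.Agent.Y491.ID

section words

variable {ι : Type} [Fintype ι] (u v : ι → ℕ)

/-- only the later letter is `A` -/
noncomputable def Sv (w : Finset ℕ) : Finset ι := univ.filter fun q => v q ∈ w ∧ u q ∉ w

/-- only the earlier letter is `A` -/
noncomputable def Su (w : Finset ℕ) : Finset ι := univ.filter fun q => u q ∈ w ∧ v q ∉ w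

/-- move the letters `A` of the mixed pairs to the front -/
noncomputable def norm (w : Finset ℕ) : Finset ℕ :=
  (w \ (Sv u v w).image v) ∪ (Sv u v w).image u

/-- move the letters `A` of the pairs in `S` to the back -/
noncomputable def flip (w : Finset ℕ) (S : Finset ι) : Finset ℕ := (w \ S.image u) ∪ S.image v

variable {u v}

lemma mem_Sv {w : Finset ℕ} {q : ι} : q ∈ Sv u v w ↔ v q ∈ w ∧ u q ∉ w := by
  unfold Sv
  rw [mem_filter]
  exact ⟨fun h => h.2, fun h => ⟨mem_univ _, h⟩⟩

lemma mem_Su {w : Finset ℕ} {q : ι} : q ∈ Su u v w ↔ u q ∈ w ∧ v q ∉ w := by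
  unfold Su
  rw [mem_filter]
  exact ⟨fun h => h.2, fun h => ⟨mem_univ _, h⟩⟩

lemma img_mem {f : ι → ℕ} (hf : Function.Injective f) {S : Finset ι} {q : ι} :
    f q ∈ S.image f ↔ q ∈ S := by
  rw [mem_image]
  exact ⟨fun ⟨q', h1, h2⟩ => hf h2 ▸ h1, fun h => ⟨q, h, rfl⟩⟩

lemma img_not_mem {f g : ι → ℕ} (hfg : ∀ q q', f q ≠ g q') {S : Finset ι} {q : ι} :
    f q ∉ S.image g := by
  rw [mem_image]
  rintro ⟨q', _, h⟩
  exact hfg q q' h.symm

section mem

variable (hu : Function.Injective u) (hv : Function.Injective v) (hd : ∀ q q', u q ≠ v q')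
include hu hv hd

lemma u_mem_norm {w : Finset ℕ} {q : ι} : u q ∈ norm u v w ↔ u q ∈ w ∨ v q ∈ w := by
  unfold norm
  rw [mem_union, mem_sdiff, img_mem hu, mem_Sv]
  have h := img_not_mem (S := Sv u v w) (q := q) hd
  tauto

lemma v_mem_norm {w : Finset ℕ} {q : ι} : v q ∈ norm u v w ↔ v q ∈ w ∧ u q ∈ w := by
  unfold norm
  rw [mem_union, mem_sdiff, img_mem hv, mem_Sv]
  have h := img_not_mem (S := Sv u v w) (q := q) (f := v) (g := u) (fun a b => (hd b a).symm)
  tauto

lemma u_mem_flip {w : Finset ℕ} {S : Finset ι} {q : ι} :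
    u q ∈ flip u v w S ↔ u q ∈ w ∧ q ∉ S := by
  unfold flip
  rw [mem_union, mem_sdiff, img_mem hu]
  have h := img_not_mem (S := S) (q := q) hd
  tauto

lemma v_mem_flip {w : Finset ℕ} {S : Finset ι} {q : ι} :
    v q ∈ flip u v w S ↔ v q ∈ w ∨ q ∈ S := by
  unfold flip
  rw [mem_union, mem_sdiff, img_mem hv]
  have h := img_not_mem (S := S) (q := q) (f := v) (g := u) (fun a b => (hd b a).symm)
  tauto

omit hu hv hd in
lemma o_mem_norm {w : Finset ℕ} {t : ℕ} (h1 : ∀ q, u q ≠ t) (h2 : ∀ q, v q ≠ t) :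
    t ∈ norm u v w ↔ t ∈ w := by
  unfold norm
  rw [mem_union, mem_sdiff, mem_image, mem_image]
  constructor
  · rintro (h | ⟨q, _, h⟩)
    · exact h.1
    · exact absurd h (h1 q)
  · intro h
    exact Or.inl ⟨h, fun ⟨q, _, h'⟩ => h2 q h'⟩

omit hu hv hd in
lemma o_mem_flip {w : Finset ℕ} {S : Finset ι} {t : ℕ} (h1 : ∀ q, u q ≠ t) (h2 : ∀ q, v q ≠ t) :
    t ∈ flip u v w S ↔ t ∈ w := by
  unfold flip
  rw [mem_union, mem_sdiff, mem_image, mem_image]
  constructor
  · rintro (h | ⟨q, _, h⟩)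
    · exact h.1
    · exact absurd h (h2 q)
  · intro h
    exact Or.inl ⟨h, fun ⟨q, _, h'⟩ => h1 q h'⟩

omit [Fintype ι] hu hv hd in
lemma word_ext {w w' : Finset ℕ} (h1 : ∀ q, u q ∈ w ↔ u q ∈ w') (h2 : ∀ q, v q ∈ w ↔ v q ∈ w')
    (h3 : ∀ t, (∀ q, u q ≠ t) → (∀ q, v q ≠ t) → (t ∈ w ↔ t ∈ w')) : w = w' := by
  ext t
  by_cases c1 : ∃ q, u q = t
  · obtain ⟨q, rfl⟩ := c1
    exact h1 q
  · by_cases c2 : ∃ q, v q = t
    · obtain ⟨q, rfl⟩ := c2
      exact h2 q
    · exact h3 t (fun q h => c1 ⟨q, h⟩) (fun q h => c2 ⟨q, h⟩)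

lemma flip_norm (w : Finset ℕ) : flip u v (norm u v w) (Sv u v w) = w := by
  refine word_ext (u := u) (v := v) (fun q => ?_) (fun q => ?_) fun t h1 h2 => ?_
  · rw [u_mem_flip hu hv hd, u_mem_norm hu hv hd, mem_Sv]
    tauto
  · rw [v_mem_flip hu hv hd, v_mem_norm hu hv hd, mem_Sv]
    tauto
  · rw [o_mem_flip h1 h2, o_mem_norm h1 h2]

lemma Su_norm (w : Finset ℕ) : Su u v (norm u v w) = Su u v w ∪ Sv u v w := by
  ext q
  rw [mem_union, mem_Su, mem_Su, mem_Sv, u_mem_norm hu hv hd, v_mem_norm hu hv hd]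
  tauto

lemma Sv_norm (w : Finset ℕ) : Sv u v (norm u v w) = ∅ := by
  ext q
  rw [mem_Sv, u_mem_norm hu hv hd, v_mem_norm hu hv hd]
  simp only [notMem_empty, iff_false]
  tauto

lemma norm_flip {w : Finset ℕ} {S : Finset ι} (hS : S ⊆ Su u v w) (hw : Sv u v w = ∅) :
    norm u v (flip u v w S) = w := by
  have h0 : ∀ q, ¬ (v q ∈ w ∧ u q ∉ w) := by
    intro q hq
    have := (mem_Sv (u := u) (v := v)).mpr hq
    rw [hw] at this
    exact notMem_empty _ this
  refine word_ext (u := u) (v := v) (fun q => ?_) (fun q => ?_) fun t h1 h2 => ?_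
  · rw [u_mem_norm hu hv hd, u_mem_flip hu hv hd, v_mem_flip hu hv hd]
    have h1 := h0 q
    have h2 : q ∈ S → u q ∈ w ∧ v q ∉ w := fun h => mem_Su.mp (hS h)
    tauto
  · rw [v_mem_norm hu hv hd, u_mem_flip hu hv hd, v_mem_flip hu hv hd]
    have h1 := h0 q
    have h2 : q ∈ S → u q ∈ w ∧ v q ∉ w := fun h => mem_Su.mp (hS h)
    tauto
  · rw [o_mem_norm h1 h2, o_mem_flip h1 h2]

lemma Sv_flip {w : Finset ℕ} {S : Finset ι} (hS : S ⊆ Su u v w) (hw : Sv u v w = ∅) :
    Sv u v (flip u v w S) = S := by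
  have h0 : ∀ q, ¬ (v q ∈ w ∧ u q ∉ w) := by
    intro q hq
    have := (mem_Sv (u := u) (v := v)).mpr hq
    rw [hw] at this
    exact notMem_empty _ this
  ext q
  rw [mem_Sv, u_mem_flip hu hv hd, v_mem_flip hu hv hd]
  have h1 := h0 q
  have h2 : q ∈ S → u q ∈ w ∧ v q ∉ w := fun h => mem_Su.mp (hS h)
  tauto

lemma cnt_flip (huv : ∀ q, u q < v q) {w : Finset ℕ} {S : Finset ι} (hS : S ⊆ Su u v w) (t : ℕ) :
    cnt (flip u v w S) t + (S.filter fun q => u q < t ∧ t ≤ v q).card = cnt w t := by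
  unfold cnt flip
  rw [filter_union, card_union_of_disjoint]
  · have h1 : ((S.image v).filter fun s => s < t).card = (S.filter fun q => v q < t).card := by
      rw [filter_image, card_image_of_injective _ hv]
    have h2 : ((w \ S.image u).filter fun s => s < t).card +
        (S.filter fun q => u q < t).card = (w.filter fun s => s < t).card := by
      have h3 : (S.filter fun q => u q < t).card = ((S.image u).filter fun s => s < t).card := by
        rw [filter_image, card_image_of_injective _ hu]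
      rw [h3, ← card_union_of_disjoint, ← filter_union, sdiff_union_of_subset]
      · intro s hs
        obtain ⟨q, hq, rfl⟩ := mem_image.mp hs
        exact (mem_Su.mp (hS hq)).1
      · exact disjoint_filter_filter sdiff_disjoint
    have h3 : (S.filter fun q => u q < t).card = (S.filter fun q => v q < t).card +
        (S.filter fun q => u q < t ∧ t ≤ v q).card := by
      rw [← card_union_of_disjoint]
      · congr 1
        ext q
        rw [mem_union, mem_filter, mem_filter, mem_filter]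
        have := huv q
        constructor
        · rintro ⟨h4, h5⟩
          by_cases h6 : v q < t
          · exact Or.inl ⟨h4, h6⟩
          · exact Or.inr ⟨h4, h5, not_lt.mp h6⟩
        · rintro (⟨h4, h5⟩ | ⟨h4, h5, _⟩)
          · exact ⟨h4, by omega⟩
          · exact ⟨h4, h5⟩
      · rw [disjoint_left]
        intro q h4 h5
        have := (mem_filter.mp h4).2
        have := (mem_filter.mp h5).2.2
        omega
    omega
  · refine disjoint_filter_filter ?_
    rw [disjoint_left]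
    intro s h1 h2
    obtain ⟨q, hq, rfl⟩ := mem_image.mp h2
    exact (mem_Su.mp (hS hq)).2 (mem_sdiff.mp h1).1

end mem

end words

variable {P : Type} [Fintype P] {r : P → P → Prop}

lemma cnt_all {n : ℕ} {w : Finset ℕ} (hw : w ⊆ range n) : cnt w n = w.card := by
  unfold cnt
  rw [filter_true_of_mem fun s hs => mem_range.mp (hw hs)]

/-- the mixed pairs -/
noncomputable def Mx {ι : Type} [Fintype ι] (u v : ι → ℕ) (w : Finset ℕ) : Finset ι :=
  Su u v w ∪ Sv u v w

lemma card_Mx {ι : Type} [Fintype ι] (u v : ι → ℕ) (w : Finset ℕ) :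
    (Mx u v w).card = (univ.filter fun q => u q ∈ w ∧ v q ∉ w).card +
      (univ.filter fun q => u q ∉ w ∧ v q ∈ w).card := by
  unfold Mx
  rw [card_union_of_disjoint]
  · unfold Su Sv
    congr 2
    refine filter_congr fun q _ => ?_
    exact and_comm
  · rw [disjoint_left]
    intro q h3 h4
    exact (mem_Su.mp h3).2 (mem_Sv.mp h4).1

/-- exchanging the letters at pairs of positions -/
theorem swap_count {A : Finset P} (hA : ∀ x y, r x y → y ∈ A → x ∈ A) {ι : Type} [Fintype ι]
    {u v : ι → ℕ} (hu : Function.Injective u) (hv : Function.Injective v)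
    (hd : ∀ q q', u q ≠ v q') (huv : ∀ q, u q < v q) (hvn : ∀ q, v q < Fintype.card P)
    {κ δ : ℕ} (hκ : 4 * δ ^ 2 ≤ κ) :
    ((LE r).filter fun T => κ ≤ (Mx u v (A.image T)).card).card ≤
      4 * ((LE r).filter fun T => κ ≤ (Mx u v (A.image T)).card ∧
        (univ.filter fun q => v q ∈ A.image T).card + δ ≤
          (univ.filter fun q => u q ∈ A.image T).card).card := by
  obtain ⟨s, hs⟩ : ∃ s, s = (LE r).filter fun T => κ ≤ (Mx u v (A.image T)).card := ⟨_, rfl⟩
  obtain ⟨s', hs'⟩ : ∃ s', s' = (LE r).filter fun T => κ ≤ (Mx u v (A.image T)).card ∧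
        (univ.filter fun q => v q ∈ A.image T).card + δ ≤
          (univ.filter fun q => u q ∈ A.image T).card := ⟨_, rfl⟩
  rw [← hs, ← hs']
  obtain ⟨key, hkey⟩ : ∃ key : (P → ℕ) → (P → ℕ) × Finset ℕ,
    key = fun T => (rk A T, norm u v (A.image T)) := ⟨_, rfl⟩
  obtain ⟨t, ht⟩ : ∃ t, t = s.image key := ⟨_, rfl⟩
  have h1 : s.card = ∑ k ∈ t, (s.filter fun T => key T = k).card :=
    card_eq_sum_card_fiberwise fun T hT => by rw [ht]; exact mem_image_of_mem _ hT
  have h2 : s'.card = ∑ k ∈ t, (s'.filter fun T => key T = k).card :=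
    card_eq_sum_card_fiberwise fun T hT => by
      rw [ht]
      refine mem_image_of_mem _ ?_
      rw [hs', mem_coe, mem_filter] at hT
      rw [hs, mem_filter]
      exact ⟨hT.1, hT.2.1⟩
  rw [h1, h2, mul_sum]
  refine sum_le_sum fun k hk => ?_
  rw [ht, mem_image] at hk
  obtain ⟨T₀, hT₀s, hT₀k⟩ := hk
  obtain ⟨F, hF⟩ : ∃ F, F = s.filter fun T => key T = k := ⟨_, rfl⟩
  obtain ⟨g, hg⟩ : ∃ g : (P → ℕ) → Finset ι, g = fun T => Sv u v (A.image T) := ⟨_, rfl⟩
  have hFm : ∀ T, T ∈ F ↔ T ∈ LE r ∧ κ ≤ (Mx u v (A.image T)).card ∧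
      rk A T = k.1 ∧ norm u v (A.image T) = k.2 := by
    intro T
    rw [hF, mem_filter, hs, mem_filter, hkey]
    constructor
    · rintro ⟨⟨h3, h4⟩, h5⟩
      exact ⟨h3, h4, by rw [← h5], by rw [← h5]⟩
    · rintro ⟨h3, h4, h5, h6⟩
      exact ⟨⟨h3, h4⟩, Prod.ext h5 h6⟩
  have hMx : ∀ T ∈ F, Mx u v (A.image T) = Su u v k.2 := by
    intro T hT
    unfold Mx
    rw [← Su_norm hu hv hd, ((hFm T).mp hT).2.2.2]
  have hword : ∀ T ∈ F, A.image T = flip u v k.2 (g T) := by
    intro T hT
    rw [← ((hFm T).mp hT).2.2.2, hg]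
    exact (flip_norm hu hv hd _).symm
  have hgsub : ∀ T ∈ F, g T ⊆ Su u v k.2 := by
    intro T hT
    rw [← hMx T hT, hg]
    exact subset_union_right
  have hk0 : Sv u v k.2 = ∅ := by
    rw [← hT₀k, hkey]
    exact Sv_norm hu hv hd _
  obtain ⟨𝒜, h𝒜⟩ : ∃ 𝒜, 𝒜 = F.image g := ⟨_, rfl⟩
  have hcard : F.card = 𝒜.card := by
    rw [h𝒜]
    refine (card_image_of_injOn ?_).symm
    intro T hT T' hT' heq
    rw [mem_coe] at hT hT'
    obtain ⟨a1, a2, a3, a4⟩ := (hFm T).mp hT
    obtain ⟨b1, b2, b3, b4⟩ := (hFm T').mp hT'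
    refine eq_of_rk a1 b1 ?_ (a3.trans b3.symm)
    rw [hword T hT, hword T' hT', heq]
  have hT₀F : T₀ ∈ F := by
    rw [hF, mem_filter]
    exact ⟨hT₀s, hT₀k⟩
  have hκ' : 4 * δ ^ 2 ≤ (Su u v k.2).card := by
    rw [← hMx T₀ hT₀F]
    exact hκ.trans ((hFm T₀).mp hT₀F).2.1
  have hH := harris (Su u v k.2) 𝒜 (fun S hS => ?_) (fun S hS S' hS' => ?_) hκ'
  · rw [← hF, hcard]
    refine hH.trans (Nat.mul_le_mul_left _ ?_)
    refine (card_le_card (t := (s'.filter fun T => key T = k).image g) ?_).trans card_image_le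
    intro S hS
    obtain ⟨hS1, hS2⟩ := mem_filter.mp hS
    rw [h𝒜, mem_image] at hS1
    obtain ⟨T, hT, rfl⟩ := hS1
    refine mem_image_of_mem _ ?_
    obtain ⟨a1, a2, a3, a4⟩ := (hFm T).mp hT
    rw [mem_filter, hs', mem_filter, hkey]
    refine ⟨⟨a1, a2, ?_⟩, Prod.ext a3 a4⟩
    obtain ⟨w, hw⟩ : ∃ w, w = A.image T := ⟨_, rfl⟩
    have e1 := hMx T hT
    rw [← e1] at hS2
    have e2 : g T = Sv u v w := by rw [hg, hw]
    rw [e2] at hS2
    rw [← hw] at hS2 ⊢
    have e3 : (Mx u v w).card = (Su u v w).card + (Sv u v w).card := by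
      unfold Mx
      refine card_union_of_disjoint ?_
      rw [disjoint_left]
      intro q h3 h4
      exact (mem_Su.mp h3).2 (mem_Sv.mp h4).1
    have e4 : (univ.filter fun q => v q ∈ w).card =
        (Sv u v w).card + (univ.filter fun q => u q ∈ w ∧ v q ∈ w).card := by
      rw [← card_union_of_disjoint]
      · congr 1
        ext q
        rw [mem_union, mem_Sv, mem_filter, mem_filter]
        have : q ∈ (univ : Finset ι) := mem_univ q
        tauto
      · rw [disjoint_left]
        intro q h3 h4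
        exact (mem_Sv.mp h3).2 (mem_filter.mp h4).2.1
    have e5 : (univ.filter fun q => u q ∈ w).card =
        (Su u v w).card + (univ.filter fun q => u q ∈ w ∧ v q ∈ w).card := by
      rw [← card_union_of_disjoint]
      · congr 1
        ext q
        rw [mem_union, mem_Su, mem_filter, mem_filter]
        have : q ∈ (univ : Finset ι) := mem_univ q
        tauto
      · rw [disjoint_left]
        intro q h3 h4
        exact (mem_Su.mp h3).2 (mem_filter.mp h4).2.2
    rw [e4, e5]
    omega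
  · rw [h𝒜, mem_image] at hS
    obtain ⟨T, hT, rfl⟩ := hS
    exact hgsub T hT
  · rw [h𝒜, mem_image] at hS
    obtain ⟨T, hT, rfl⟩ := hS
    obtain ⟨a1, a2, a3, a4⟩ := (hFm T).mp hT
    have hsub := hgsub T hT
    have hsub' : S' ⊆ Su u v k.2 := Finset.Subset.trans hS' hsub
    obtain ⟨n, hn⟩ : ∃ n, n = Fintype.card P := ⟨_, rfl⟩
    have hwr : A.image T ⊆ range n := by rw [hn]; exact image_sub a1
    -- the new word
    obtain ⟨w', hw'⟩ : ∃ w', w' = flip u v k.2 S' := ⟨_, rfl⟩
    have hk2 : k.2 ⊆ range n := by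
      rw [← a4]
      unfold norm
      refine union_subset (Finset.Subset.trans sdiff_subset hwr) ?_
      intro x hx
      obtain ⟨q, _, rfl⟩ := mem_image.mp hx
      rw [mem_range, hn]
      exact (huv q).trans (hvn q)
    have hw'r : w' ⊆ range n := by
      rw [hw']
      unfold flip
      refine union_subset (Finset.Subset.trans sdiff_subset hk2) ?_
      intro x hx
      obtain ⟨q, _, rfl⟩ := mem_image.mp hx
      rw [mem_range, hn]
      exact hvn q
    have hdom : ∀ t, cnt (A.image T) t ≤ cnt w' t := by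
      intro t
      have c1 := cnt_flip hu hv hd huv hsub t
      have c2 := cnt_flip hu hv hd huv hsub' t
      rw [← hword T hT] at c1
      rw [← hw'] at c2
      have c3 : (S'.filter fun q => u q < t ∧ t ≤ v q).card ≤
          ((g T).filter fun q => u q < t ∧ t ≤ v q).card := card_le_card (filter_subset_filter _ hS')
      omega
    have hcn : w'.card = (A.image T).card := by
      have c1 := cnt_flip hu hv hd huv hsub n
      have c2 := cnt_flip hu hv hd huv hsub' n
      rw [← hword T hT] at c1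
      rw [← hw'] at c2
      have c3 : ∀ S : Finset ι, (S.filter fun q => u q < n ∧ n ≤ v q).card = 0 := by
        intro S
        rw [card_eq_zero, filter_eq_empty_iff]
        intro q _ hq
        have := hvn q
        omega
      rw [c3] at c1 c2
      rw [cnt_all hwr] at c1
      rw [cnt_all hw'r] at c2
      omega
    obtain ⟨m1, m2, m3⟩ := mk_mem hA a1 (w := w') (by rw [← hn]; exact hw'r) hcn
      (fun t _ => hdom t)
    rw [h𝒜, mem_image]
    refine ⟨mk A w' (rk A T), ?_, ?_⟩
    · rw [hFm]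
      have hnorm : norm u v w' = k.2 := by rw [hw']; exact norm_flip hu hv hd hsub' hk0
      refine ⟨m1, ?_, m3.trans a3, by rw [m2]; exact hnorm⟩
      rw [m2]
      have : Mx u v w' = Mx u v (A.image T) := by
        rw [hMx T hT]
        unfold Mx
        rw [← Su_norm hu hv hd, hnorm]
      rw [this]
      exact a2
    · rw [hg]
      show Sv u v (A.image (mk A w' (rk A T))) = S'
      rw [m2, hw']
      exact Sv_flip hu hv hd hsub' hk0

end Pool.Agent.Y491.ID
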