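import Pool.Agent.H34.L.Y491.ID.Gap
import Pool.Agent.H34.L.Y491.ID.Harris

/-!
# Consecutive blocks: the number of elements of a lower set decreases
-/

set_option autoImplicit false
set_option linter.unusedSectionVars false

open Finset
open scoped Classical

namespace Pool.Agent.Y491.ID

variable {P : Type} [Fintype P] {r : P → P → Prop} {idx : P → ℕ} {K : ℕ}

/-- number of elements of `A` with value less than `t` -/
noncomputable def iA (A : Finset P) (T : P → ℕ) (t : ℕ) : ℕ := (A.filter fun a => T a < t).card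

lemma iA_le (h : Dis r idx K) (A : Finset P) {T : P → ℕ} (t : ℕ) :
    iA A T t ≤ iA A idx t + cc idx t T := by
  unfold iA cc
  refine (card_le_card ?_).trans (card_union_le _ _)
  intro x hx
  obtain ⟨h1, h2⟩ := mem_filter.mp hx
  rw [mem_union, mem_filter, mem_filter]
  by_cases c : idx x < t
  · exact Or.inl ⟨h1, c⟩
  · exact Or.inr ⟨mem_univ _, h2, not_lt.mp c⟩

lemma iA_ge (h : Dis r idx K) (A : Finset P) {T : P → ℕ} (hT : T ∈ LE r) {t : ℕ}
    (ht : t ≤ Fintype.card P) : iA A idx t ≤ iA A T t + cc idx t T := by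
  rw [← cc_eq h hT ht]
  unfold iA
  refine (card_le_card ?_).trans (card_union_le _ _)
  intro x hx
  obtain ⟨h1, h2⟩ := mem_filter.mp hx
  rw [mem_union, mem_filter, mem_filter]
  by_cases c : T x < t
  · exact Or.inl ⟨h1, c⟩
  · exact Or.inr ⟨mem_univ _, h2, not_lt.mp c⟩

lemma iA_mono (A : Finset P) (T : P → ℕ) {s t : ℕ} (h : s ≤ t) : iA A T s ≤ iA A T t := by
  unfold iA
  refine card_le_card fun x hx => ?_
  obtain ⟨h1, h2⟩ := mem_filter.mp hx
  exact mem_filter.mpr ⟨h1, by omega⟩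

lemma iA_compl (A : Finset P) {f : P → ℕ} (hinj : Function.Injective f)
    (hlt : ∀ x, f x < Fintype.card P) {t : ℕ} (ht : t ≤ Fintype.card P) :
    iA A f t + (univ.filter fun x => x ∉ A ∧ f x < t).card = t := by
  have h1 := count_lt hinj hlt ht
  have h2 : (univ.filter fun x => f x < t) = (A.filter fun a => f a < t) ∪
      (univ.filter fun x => x ∉ A ∧ f x < t) := by
    ext x
    rw [mem_union, mem_filter, mem_filter, mem_filter]
    have := mem_univ x
    tauto
  rw [h2, card_union_of_disjoint] at h1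
  · exact h1
  · rw [disjoint_left]
    intro x h3 h4
    exact (mem_filter.mp h4).2.1 (mem_filter.mp h3).1

/-- the number of letters `A` in a block -/
lemma iA_add (A : Finset P) {T : P → ℕ} (hinj : Function.Injective T) (t ℓ : ℕ) :
    iA A T (t + ℓ) = iA A T t + (univ.filter fun q : Fin ℓ => t + (q : ℕ) ∈ A.image T).card := by
  have h1 : iA A T (t + ℓ) = iA A T t + (A.filter fun a => t ≤ T a ∧ T a < t + ℓ).card := by
    unfold iA
    rw [← card_union_of_disjoint]
    · congr 1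
      ext x
      rw [mem_union, mem_filter, mem_filter, mem_filter]
      constructor
      · rintro ⟨h1, h2⟩
        by_cases c : T x < t
        · exact Or.inl ⟨h1, c⟩
        · exact Or.inr ⟨h1, not_lt.mp c, h2⟩
      · rintro (⟨h1, h2⟩ | ⟨h1, _, h2⟩)
        · exact ⟨h1, by omega⟩
        · exact ⟨h1, h2⟩
    · rw [disjoint_left]
      intro x h2 h3
      have := (mem_filter.mp h2).2
      have := (mem_filter.mp h3).2.1
      omega
  rw [h1]
  congr 1
  refine card_bij (fun a ha => ⟨T a - t, ?_⟩) ?_ ?_ ?_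
  · have := (mem_filter.mp ha).2
    omega
  · intro a ha
    obtain ⟨h2, h3, h4⟩ := mem_filter.mp ha
    refine mem_filter.mpr ⟨mem_univ _, ?_⟩
    show t + (T a - t) ∈ A.image T
    have : t + (T a - t) = T a := by omega
    rw [this]
    exact mem_image_of_mem _ h2
  · intro a ha a' ha' heq
    obtain ⟨h2, h3, h4⟩ := mem_filter.mp ha
    obtain ⟨h2', h3', h4'⟩ := mem_filter.mp ha'
    have h5 := congrArg Fin.val heq
    simp only at h5
    exact hinj (by omega)
  · intro q hq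
    obtain ⟨a, ha, hat⟩ := mem_image.mp (mem_filter.mp hq).2
    refine ⟨a, mem_filter.mpr ⟨ha, by omega, ?_⟩, ?_⟩
    · have := q.2
      omega
    · refine Fin.ext ?_
      simp only
      omega

/-- the positions of the pairs -/
def vpos (t ℓ : ℕ) (s q : Fin ℓ) : ℕ := t + ℓ + ((q + s : Fin ℓ) : ℕ)

/-- the positions of the pairs -/
def upos (t ℓ : ℕ) (q : Fin ℓ) : ℕ := t + (q : ℕ)

lemma upos_inj (t ℓ : ℕ) : Function.Injective (upos t ℓ) := by
  intro q q' h
  unfold upos at h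
  exact Fin.ext (by omega)

lemma vpos_inj (t ℓ : ℕ) (s : Fin ℓ) : Function.Injective (vpos t ℓ s) := by
  intro q q' h
  unfold vpos at h
  have h1 : q + s = q' + s := Fin.ext (by omega)
  rcases Nat.eq_zero_or_pos ℓ with rfl | hℓ
  · exact q.elim0
  · have : NeZero ℓ := ⟨hℓ.ne'⟩
    exact add_right_cancel h1

lemma card_vpos (t ℓ : ℕ) (s : Fin ℓ) (w : Finset ℕ) :
    (univ.filter fun q : Fin ℓ => vpos t ℓ s q ∈ w).card =
      (univ.filter fun q : Fin ℓ => t + ℓ + (q : ℕ) ∈ w).card := by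
  rcases Nat.eq_zero_or_pos ℓ with rfl | hℓ
  · exact s.elim0
  · have : NeZero ℓ := ⟨hℓ.ne'⟩
    refine card_bij (fun q _ => q + s) ?_ ?_ ?_
    · intro q hq
      exact mem_filter.mpr ⟨mem_univ _, (mem_filter.mp hq).2⟩
    · intro q _ q' _ h
      exact add_right_cancel h
    · intro q hq
      refine ⟨q - s, mem_filter.mpr ⟨mem_univ _, ?_⟩, sub_add_cancel q s⟩
      unfold vpos
      rw [sub_add_cancel]
      exact (mem_filter.mp hq).2

/-- the number of mixed pairs, summed over the shifts -/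
lemma sum_Mx (t ℓ : ℕ) (w : Finset ℕ) {X Y : ℕ}
    (hX : X = (univ.filter fun q : Fin ℓ => t + (q : ℕ) ∈ w).card)
    (hY : Y = (univ.filter fun q : Fin ℓ => t + ℓ + (q : ℕ) ∈ w).card) :
    ∑ s : Fin ℓ, (Mx (upos t ℓ) (vpos t ℓ s) w).card = X * (ℓ - Y) + (ℓ - X) * Y := by
  rcases Nat.eq_zero_or_pos ℓ with rfl | hℓ
  · simp only [univ_eq_empty, sum_empty, filter_empty, card_empty] at hX hY ⊢
    rw [hX, hY]
    rfl
  have : NeZero ℓ := ⟨hℓ.ne'⟩
  have h1 : ∀ s : Fin ℓ, (Mx (upos t ℓ) (vpos t ℓ s) w).card =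
      (∑ q : Fin ℓ, if t + (q : ℕ) ∈ w ∧ t + ℓ + ((q + s : Fin ℓ) : ℕ) ∉ w then 1 else 0) +
      ∑ q : Fin ℓ, if t + (q : ℕ) ∉ w ∧ t + ℓ + ((q + s : Fin ℓ) : ℕ) ∈ w then 1 else 0 := by
    intro s
    rw [card_Mx, card_filter, card_filter]
    rfl
  simp only [h1]
  rw [sum_add_distrib, sum_comm, sum_comm (f := fun (s q : Fin ℓ) =>
    if t + (q : ℕ) ∉ w ∧ t + ℓ + ((q + s : Fin ℓ) : ℕ) ∈ w then 1 else 0)]
  have h2 : ∀ (f : Fin ℓ → ℕ) (q : Fin ℓ), ∑ s : Fin ℓ, f (q + s) = ∑ s : Fin ℓ, f s := fun f q =>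
    Fintype.sum_equiv (Equiv.addLeft q) _ _ fun s => rfl
  have hXc : (univ.filter fun q : Fin ℓ => t + (q : ℕ) ∉ w).card = ℓ - X := by
    have h3 := card_filter_add_card_filter_not (s := (univ : Finset (Fin ℓ)))
      (fun q : Fin ℓ => t + (q : ℕ) ∈ w)
    rw [card_univ, Fintype.card_fin] at h3
    omega
  have hYc : (univ.filter fun q : Fin ℓ => t + ℓ + (q : ℕ) ∉ w).card = ℓ - Y := by
    have h3 := card_filter_add_card_filter_not (s := (univ : Finset (Fin ℓ)))
      (fun q : Fin ℓ => t + ℓ + (q : ℕ) ∈ w)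
    rw [card_univ, Fintype.card_fin] at h3
    omega
  congr 1
  · have h3 : ∀ q : Fin ℓ, (∑ s : Fin ℓ,
        if t + (q : ℕ) ∈ w ∧ t + ℓ + ((q + s : Fin ℓ) : ℕ) ∉ w then 1 else 0) =
        if t + (q : ℕ) ∈ w then ℓ - Y else 0 := by
      intro q
      rw [h2 (fun s => if t + (q : ℕ) ∈ w ∧ t + ℓ + (s : ℕ) ∉ w then 1 else 0) q]
      by_cases c : t + (q : ℕ) ∈ w
      · rw [if_pos c, ← hYc, card_filter]
        refine sum_congr rfl fun s _ => if_congr ?_ rfl rfl
        exact ⟨fun h => h.2, fun h => ⟨c, h⟩⟩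
      · rw [if_neg c]
        refine sum_eq_zero fun s _ => if_neg fun h => c h.1
    simp only [h3]
    rw [← sum_filter, sum_const, ← hX, smul_eq_mul]
  · have h3 : ∀ q : Fin ℓ, (∑ s : Fin ℓ,
        if t + (q : ℕ) ∉ w ∧ t + ℓ + ((q + s : Fin ℓ) : ℕ) ∈ w then 1 else 0) =
        if t + (q : ℕ) ∉ w then Y else 0 := by
      intro q
      rw [h2 (fun s => if t + (q : ℕ) ∉ w ∧ t + ℓ + (s : ℕ) ∈ w then 1 else 0) q]
      by_cases c : t + (q : ℕ) ∉ w
      · rw [if_pos c, hY, card_filter]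
        refine sum_congr rfl fun s _ => if_congr ?_ rfl rfl
        exact ⟨fun h => h.2, fun h => ⟨c, h⟩⟩
      · rw [if_neg c]
        refine sum_eq_zero fun s _ => if_neg fun h => c h.1
    simp only [h3]
    rw [← sum_filter, sum_const, hXc, smul_eq_mul]

/-- many shifts have many mixed pairs -/
lemma many_shifts {t ℓ : ℕ} {w : Finset ℕ} {X Y κ : ℕ}
    (hX : X = (univ.filter fun q : Fin ℓ => t + (q : ℕ) ∈ w).card)
    (hY : Y = (univ.filter fun q : Fin ℓ => t + ℓ + (q : ℕ) ∈ w).card)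
    (h1 : 4 * κ ≤ X) (h2 : X + 4 * κ ≤ ℓ) (h3 : 4 * κ ≤ Y) (h4 : Y + 4 * κ ≤ ℓ) :
    κ ≤ (univ.filter fun s : Fin ℓ => κ ≤ (Mx (upos t ℓ) (vpos t ℓ s) w).card).card := by
  rcases Nat.eq_zero_or_pos κ with rfl | hκ
  · exact Nat.zero_le _
  have hℓ : 0 < ℓ := by omega
  have hs := sum_Mx t ℓ w hX hY
  obtain ⟨m, hm⟩ : ∃ m, m = (univ.filter fun s : Fin ℓ =>
    κ ≤ (Mx (upos t ℓ) (vpos t ℓ s) w).card).card := ⟨_, rfl⟩
  rw [← hm]
  have h5 : ∑ s : Fin ℓ, (Mx (upos t ℓ) (vpos t ℓ s) w).card ≤ κ * ℓ + ℓ * m := by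
    have h6 : ∀ s ∈ (univ : Finset (Fin ℓ)), (Mx (upos t ℓ) (vpos t ℓ s) w).card ≤
        κ + (if κ ≤ (Mx (upos t ℓ) (vpos t ℓ s) w).card then ℓ else 0) := by
      intro s _
      by_cases c : κ ≤ (Mx (upos t ℓ) (vpos t ℓ s) w).card
      · rw [if_pos c]
        have : (Mx (upos t ℓ) (vpos t ℓ s) w).card ≤ ℓ := by
          refine (card_le_univ _).trans ?_
          rw [Fintype.card_fin]
        omega
      · rw [if_neg c]
        omega
    refine (sum_le_sum h6).trans ?_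
    rw [sum_add_distrib, sum_const, card_univ, Fintype.card_fin, ← sum_filter, sum_const, ← hm,
      smul_eq_mul, smul_eq_mul]
    nlinarith
  rw [hs] at h5
  have h6 : 2 * κ * ℓ ≤ X * (ℓ - Y) + (ℓ - X) * Y := by
    obtain ⟨a, ha⟩ : ∃ a, a = ℓ - Y := ⟨_, rfl⟩
    obtain ⟨c, hc⟩ : ∃ c, c = ℓ - X := ⟨_, rfl⟩
    rw [← ha, ← hc]
    have ha1 : 4 * κ ≤ a := by omega
    have hc1 : 4 * κ ≤ c := by omega
    have hcX : c + X = ℓ := by omega
    rw [← hcX]
    have e1 : X * (4 * κ) ≤ X * a := Nat.mul_le_mul_left _ ha1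
    have e2 : c * (4 * κ) ≤ c * Y := Nat.mul_le_mul_left _ h3
    nlinarith
  have h7 : ℓ * (2 * κ) ≤ ℓ * (κ + m) := by nlinarith
  have h8 := Nat.le_of_mul_le_mul_left h7 hℓ
  omega

/-- the number of elements of a lower set in consecutive long blocks decreases -/
theorem block_lt (h : Dis r idx K) {A : Finset P} (hA : ∀ x y, r x y → y ∈ A → x ∈ A)
    {δ κ G ℓ t : ℕ} (hδ : δ = 4000 * K ^ 2) (hκ : κ = 4 * δ ^ 2) (hG : G = 1104 * K ^ 2)
    (hℓ : ℓ = 8 * κ * G) (ht : t + 2 * ℓ ≤ Fintype.card P)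
    (h1 : iA A idx t + 8 * κ ≤ iA A idx (t + ℓ))
    (h2 : iA A idx (t + ℓ) + 8 * κ ≤ iA A idx t + ℓ)
    (h3 : iA A idx (t + ℓ) + 8 * κ ≤ iA A idx (t + 2 * ℓ))
    (h4 : iA A idx (t + 2 * ℓ) + 8 * κ ≤ iA A idx (t + ℓ) + ℓ) :
    iA A idx (t + 2 * ℓ) + iA A idx t < 2 * iA A idx (t + ℓ) := by
  have hK := h.pos
  obtain ⟨N, hN⟩ : ∃ N, N = (LE r).card := ⟨_, rfl⟩
  have hN0 : 0 < N := by rw [hN]; exact card_pos.mpr h.ne
  have hKK : K ≤ K ^ 2 := Nat.le_self_pow (by norm_num) K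
  have hκ1 : 64000000 * K ^ 2 ≤ κ := by
    rw [hκ, hδ]
    have : K ^ 2 * 1 ≤ K ^ 2 * K ^ 2 := Nat.mul_le_mul_left _ (by omega)
    nlinarith
  have hG0 : 0 < G := by rw [hG]; omega
  have hκ0 : 0 < κ := by omega
  obtain ⟨R, hR⟩ : ∃ R, R = 1000 * K ^ 2 := ⟨_, rfl⟩
  -- the tails of `cc`
  have htail : ∀ s, s ≤ Fintype.card P → ∀ w, w ^ 2 * ((LE r).filter fun T => w ≤ cc idx s T).card ≤
      4 * K * N := fun s hs w => by rw [hN]; exact cc_tail h hs w
  have htail1 : ∀ s, s ≤ Fintype.card P → 8 * ((LE r).filter fun T => 2 * κ ≤ cc idx s T).card ≤ N := by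
    intro s hs
    have e1 := htail s hs (2 * κ)
    have e2 : 32 * K ≤ (2 * κ) ^ 2 := by nlinarith
    have e3 : 4 * K * (8 * ((LE r).filter fun T => 2 * κ ≤ cc idx s T).card) ≤ 4 * K * N := by
      calc 4 * K * (8 * ((LE r).filter fun T => 2 * κ ≤ cc idx s T).card)
          = 32 * K * ((LE r).filter fun T => 2 * κ ≤ cc idx s T).card := by ring
        _ ≤ (2 * κ) ^ 2 * ((LE r).filter fun T => 2 * κ ≤ cc idx s T).card :=
            Nat.mul_le_mul_right _ e2
        _ ≤ _ := e1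
    exact Nat.le_of_mul_le_mul_left e3 (by omega)
  have htail2 : ∀ s, s ≤ Fintype.card P →
      192 * G * ((LE r).filter fun T => R ≤ cc idx s T).card < N := by
    intro s hs
    have e1 := htail s hs R
    have e2 : 4 * K * (192 * G) < R ^ 2 := by
      rw [hR, hG]
      have : K * K ^ 2 ≤ K ^ 2 * K ^ 2 := Nat.mul_le_mul_right _ hKK
      have : 0 < K * K ^ 2 := by positivity
      nlinarith
    by_contra hc
    rw [not_lt] at hc
    have e3 : 4 * K * N ≤ 4 * K * (192 * G) * ((LE r).filter fun T => R ≤ cc idx s T).card := by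
      calc 4 * K * N ≤ 4 * K * (192 * G * ((LE r).filter fun T => R ≤ cc idx s T).card) :=
            Nat.mul_le_mul_left _ hc
        _ = _ := by ring
    have e4 : 0 < ((LE r).filter fun T => R ≤ cc idx s T).card := by
      by_contra h0
      have h0' : ((LE r).filter fun T => R ≤ cc idx s T).card = 0 := by omega
      rw [h0'] at hc
      omega
    have e5 := Nat.mul_lt_mul_of_pos_right e2 e4
    omega
  obtain ⟨X, hX⟩ : ∃ X : (P → ℕ) → ℕ, X = fun T => (univ.filter fun q : Fin ℓ => t + (q : ℕ) ∈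
    A.image T).card := ⟨_, rfl⟩
  obtain ⟨Y, hY⟩ : ∃ Y : (P → ℕ) → ℕ, Y = fun T => (univ.filter fun q : Fin ℓ => t + ℓ + (q : ℕ) ∈
    A.image T).card := ⟨_, rfl⟩
  have hXT : ∀ T ∈ LE r, iA A T (t + ℓ) = iA A T t + X T := fun T hT => by
    rw [hX]; exact iA_add A (mem_LE.mp hT).2.1 t ℓ
  have hYT : ∀ T ∈ LE r, iA A T (t + 2 * ℓ) = iA A T (t + ℓ) + Y T := fun T hT => by
    rw [hY, two_mul, ← add_assoc]; exact iA_add A (mem_LE.mp hT).2.1 (t + ℓ) ℓ
  -- the good maps
  obtain ⟨good, hgood⟩ : ∃ good, good = (LE r).filter fun T => cc idx t T < 2 * κ ∧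
    cc idx (t + ℓ) T < 2 * κ ∧ cc idx (t + 2 * ℓ) T < 2 * κ := ⟨_, rfl⟩
  have hgc : N ≤ 2 * good.card := by
    have e0 : LE r ⊆ good ∪ (((LE r).filter fun T => 2 * κ ≤ cc idx t T) ∪
        (((LE r).filter fun T => 2 * κ ≤ cc idx (t + ℓ) T) ∪
        ((LE r).filter fun T => 2 * κ ≤ cc idx (t + 2 * ℓ) T))) := by
      intro T hT
      rw [mem_union, mem_union, mem_union, hgood, mem_filter, mem_filter, mem_filter, mem_filter]
      by_cases c1 : 2 * κ ≤ cc idx t T
      · exact Or.inr (Or.inl ⟨hT, c1⟩)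
      · by_cases c2 : 2 * κ ≤ cc idx (t + ℓ) T
        · exact Or.inr (Or.inr (Or.inl ⟨hT, c2⟩))
        · by_cases c3 : 2 * κ ≤ cc idx (t + 2 * ℓ) T
          · exact Or.inr (Or.inr (Or.inr ⟨hT, c3⟩))
          · exact Or.inl ⟨hT, by omega, by omega, by omega⟩
    have e1 := (card_le_card e0).trans (card_union_le _ _)
    have e2 := card_union_le ((LE r).filter fun T => 2 * κ ≤ cc idx t T)
        (((LE r).filter fun T => 2 * κ ≤ cc idx (t + ℓ) T) ∪
        ((LE r).filter fun T => 2 * κ ≤ cc idx (t + 2 * ℓ) T))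
    have e3 := card_union_le ((LE r).filter fun T => 2 * κ ≤ cc idx (t + ℓ) T)
        ((LE r).filter fun T => 2 * κ ≤ cc idx (t + 2 * ℓ) T)
    have e4 := htail1 t (by omega)
    have e5 := htail1 (t + ℓ) (by omega)
    have e6 := htail1 (t + 2 * ℓ) ht
    omega
  have hgs : ∀ T ∈ good, κ ≤ (univ.filter fun s : Fin ℓ =>
      κ ≤ (Mx (upos t ℓ) (vpos t ℓ s) (A.image T)).card).card := by
    intro T hT
    rw [hgood, mem_filter] at hT
    obtain ⟨hT, g1, g2, g3⟩ := hT
    have a1 := iA_le h A (T := T) t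
    have a2 := iA_le h A (T := T) (t + ℓ)
    have a3 := iA_le h A (T := T) (t + 2 * ℓ)
    have b1 := iA_ge h A hT (t := t) (by omega)
    have b2 := iA_ge h A hT (t := t + ℓ) (by omega)
    have b3 := iA_ge h A hT (t := t + 2 * ℓ) ht
    have x1 := hXT T hT
    have x2 := hYT T hT
    refine many_shifts (X := X T) (Y := Y T) (by rw [hX]) (by rw [hY]) ?_ ?_ ?_ ?_ <;> omega
  -- double counting
  obtain ⟨E, hE⟩ : ∃ E, E = (LE r).filter fun T => Y T + δ ≤ X T := ⟨_, rfl⟩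
  have hHarris : ∀ s : Fin ℓ, ((LE r).filter fun T =>
      κ ≤ (Mx (upos t ℓ) (vpos t ℓ s) (A.image T)).card).card ≤ 4 * E.card := by
    intro s
    have e1 := swap_count (r := r) hA (upos_inj t ℓ) (vpos_inj t ℓ s) (fun q q' => ?_) (fun q => ?_)
      (fun q => ?_) (κ := κ) (δ := δ) (by rw [hκ])
    · refine e1.trans (Nat.mul_le_mul_left _ (card_le_card fun T hT => ?_))
      obtain ⟨e2, e3, e4⟩ := mem_filter.mp hT
      rw [hE, mem_filter]
      refine ⟨e2, ?_⟩
      rw [card_vpos] at e4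
      rw [hX, hY]
      exact e4
    · unfold upos vpos
      have h5 := q.2
      generalize ((q' + s : Fin ℓ) : ℕ) = z
      omega
    · unfold upos vpos
      have h5 := q.2
      generalize ((q + s : Fin ℓ) : ℕ) = z
      omega
    · unfold vpos
      have h5 := (q + s).2
      generalize ((q + s : Fin ℓ) : ℕ) = z at h5 ⊢
      omega
  have hD : κ * good.card ≤ ℓ * (4 * E.card) := by
    have e1 : ∑ T ∈ LE r, (univ.filter fun s : Fin ℓ =>
        κ ≤ (Mx (upos t ℓ) (vpos t ℓ s) (A.image T)).card).card =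
        ∑ s : Fin ℓ, ((LE r).filter fun T =>
          κ ≤ (Mx (upos t ℓ) (vpos t ℓ s) (A.image T)).card).card :=
      sum_card_filter _ _ fun (T : P → ℕ) (s : Fin ℓ) =>
        κ ≤ (Mx (upos t ℓ) (vpos t ℓ s) (A.image T)).card
    calc κ * good.card = ∑ _T ∈ good, κ := by rw [sum_const, smul_eq_mul, mul_comm]
      _ ≤ ∑ T ∈ good, (univ.filter fun s : Fin ℓ =>
          κ ≤ (Mx (upos t ℓ) (vpos t ℓ s) (A.image T)).card).card := sum_le_sum hgs
      _ ≤ ∑ T ∈ LE r, (univ.filter fun s : Fin ℓ =>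
          κ ≤ (Mx (upos t ℓ) (vpos t ℓ s) (A.image T)).card).card :=
          sum_le_sum_of_subset (by rw [hgood]; exact filter_subset _ _)
      _ = _ := e1
      _ ≤ ∑ _s : Fin ℓ, 4 * E.card := sum_le_sum fun s _ => hHarris s
      _ = ℓ * (4 * E.card) := by rw [sum_const, card_univ, Fintype.card_fin, smul_eq_mul]
  have hEc : N ≤ 64 * G * E.card := by
    have e1 : κ * N ≤ κ * (64 * G * E.card) := by
      calc κ * N ≤ κ * (2 * good.card) := Nat.mul_le_mul_left _ hgc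
        _ = 2 * (κ * good.card) := by ring
        _ ≤ 2 * (ℓ * (4 * E.card)) := Nat.mul_le_mul_left _ hD
        _ = _ := by rw [hℓ]; ring
    exact Nat.le_of_mul_le_mul_left e1 hκ0
  -- a typical element of `E`
  obtain ⟨bad, hbad⟩ : ∃ bad, bad = ((LE r).filter fun T => R ≤ cc idx t T) ∪
        (((LE r).filter fun T => R ≤ cc idx (t + ℓ) T) ∪
        ((LE r).filter fun T => R ≤ cc idx (t + 2 * ℓ) T)) := ⟨_, rfl⟩
  have hbadc : bad.card < E.card := by
    have e1 : bad.card ≤ ((LE r).filter fun T => R ≤ cc idx t T).card +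
        (((LE r).filter fun T => R ≤ cc idx (t + ℓ) T).card +
        ((LE r).filter fun T => R ≤ cc idx (t + 2 * ℓ) T).card) := by
      rw [hbad]
      refine (card_union_le _ _).trans (Nat.add_le_add_left (card_union_le _ _) _)
    have e4 := htail2 t (by omega)
    have e5 := htail2 (t + ℓ) (by omega)
    have e6 := htail2 (t + 2 * ℓ) ht
    have e7 : 64 * G * bad.card < N := by
      have e8 : 3 * (64 * G * bad.card) < 3 * N := by
        calc 3 * (64 * G * bad.card) = 192 * G * bad.card := by ring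
          _ ≤ 192 * G * (((LE r).filter fun T => R ≤ cc idx t T).card +
        (((LE r).filter fun T => R ≤ cc idx (t + ℓ) T).card +
        ((LE r).filter fun T => R ≤ cc idx (t + 2 * ℓ) T).card)) := Nat.mul_le_mul_left _ e1
          _ = 192 * G * ((LE r).filter fun T => R ≤ cc idx t T).card +
            (192 * G * ((LE r).filter fun T => R ≤ cc idx (t + ℓ) T).card +
            192 * G * ((LE r).filter fun T => R ≤ cc idx (t + 2 * ℓ) T).card) := by ring
          _ < 3 * N := by omega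
      omega
    by_contra hc
    rw [not_lt] at hc
    have := Nat.mul_le_mul_left (64 * G) hc
    omega
  obtain ⟨T, hTE, hTb⟩ := exists_mem_notMem_of_card_lt_card hbadc
  rw [hE, mem_filter] at hTE
  obtain ⟨hT, hTE⟩ := hTE
  rw [hbad, mem_union, mem_union, mem_filter, mem_filter, mem_filter] at hTb
  push Not at hTb
  obtain ⟨c1, c2, c3⟩ := hTb
  have c1 := c1 hT
  have c2 := c2 hT
  have c3 := c3 hT
  have a1 := iA_le h A (T := T) t
  have a2 := iA_le h A (T := T) (t + ℓ)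
  have a3 := iA_le h A (T := T) (t + 2 * ℓ)
  have b1 := iA_ge h A hT (t := t) (by omega)
  have b2 := iA_ge h A hT (t := t + ℓ) (by omega)
  have b3 := iA_ge h A hT (t := t + 2 * ℓ) ht
  have x1 := hXT T hT
  have x2 := hYT T hT
  omega

end Pool.Agent.Y491.ID
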