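import Pool.Agent.H34.L.Y491.KS.Final
import Pool.Agent.H34.L.Y491.ID.Stretch

/-!
# Posets without balanced pairs: an enumeration with rare discordances
-/

set_option autoImplicit false
set_option linter.unusedSectionVars false

open Finset Filter Topology
open scoped Classical

namespace Pool.Agent.Y491.ID

open Pool.Agent.TH161.LW Pool.Agent.TH161.KS Pool.Agent.Y352.KSR Pool.Agent.Y491.KS

section count

variable (P : Type) [Fintype P] [PartialOrder P]

/-- the map of a bijection -/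
def toMap (σ : P ≃ Fin (Fintype.card P)) (x : P) : ℕ := (σ x : ℕ)

lemma toMap_mem {σ : P ≃ Fin (Fintype.card P)} (hσ : StrictMono ⇑σ) :
    toMap P σ ∈ LE fun x y : P => x < y := by
  refine mem_LE.mpr ⟨fun x => (σ x).2, fun x y h => σ.injective (Fin.ext h), fun x y h => ?_⟩
  exact hσ h

lemma toMap_inj : Function.Injective (toMap P) := by
  intro σ σ' h
  ext x
  exact congrFun h x

lemma toMap_surj {T : P → ℕ} (hT : T ∈ LE fun x y : P => x < y) :
    ∃ σ : P ≃ Fin (Fintype.card P), StrictMono ⇑σ ∧ toMap P σ = T := by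
  obtain ⟨h1, h2, h3⟩ := mem_LE.mp hT
  have hinj : Function.Injective fun x : P => (⟨T x, h1 x⟩ : Fin (Fintype.card P)) := by
    intro x y h
    exact h2 (congrArg Fin.val h)
  have hbij : Function.Bijective fun x : P => (⟨T x, h1 x⟩ : Fin (Fintype.card P)) := by
    rw [Fintype.bijective_iff_injective_and_card]
    exact ⟨hinj, by simp⟩
  refine ⟨Equiv.ofBijective _ hbij, fun x y h => ?_, ?_⟩
  · exact h3 x y h
  · funext x
    rfl

lemma card_LE : (LE fun x y : P => x < y).card = eN P := by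
  rw [eN_eq]
  symm
  refine card_bij (fun σ _ => toMap P σ) ?_ ?_ ?_
  · intro σ hσ
    exact toMap_mem P (mem_filter.mp hσ).2
  · intro σ _ σ' _ h
    exact toMap_inj P h
  · intro T hT
    obtain ⟨σ, h1, h2⟩ := toMap_surj P hT
    exact ⟨σ, mem_filter.mpr ⟨mem_univ _, h1⟩, h2⟩

lemma card_LE_lt (x y : P) : ((LE fun x y : P => x < y).filter fun T => T x < T y).card = eP P x y := by
  rw [eP_eq]
  symm
  refine card_bij (fun σ _ => toMap P σ) ?_ ?_ ?_
  · intro σ hσ
    obtain ⟨_, h1, h2⟩ := mem_filter.mp hσ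
    exact mem_filter.mpr ⟨toMap_mem P h1, h2⟩
  · intro σ _ σ' _ h
    exact toMap_inj P h
  · intro T hT
    obtain ⟨h0, h3⟩ := mem_filter.mp hT
    obtain ⟨σ, h1, h2⟩ := toMap_surj P h0
    refine ⟨σ, mem_filter.mpr ⟨mem_univ _, h1, ?_⟩, h2⟩
    rw [← h2] at h3
    exact h3

end count

/-- an enumeration by the heights -/
lemma exists_idx {P : Type} [Fintype P] (h : P → ℝ) : ∃ idx : P → ℕ, Function.Injective idx ∧
    (∀ x, idx x < Fintype.card P) ∧ ∀ x y, idx x ≤ idx y → h x ≤ h y := by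
  obtain ⟨e⟩ : Nonempty (P ≃ Fin (Fintype.card P)) := ⟨Fintype.equivFin P⟩
  obtain ⟨σ, hσ⟩ : ∃ σ : Equiv.Perm (Fin (Fintype.card P)), σ = Tuple.sort (h ∘ e.symm) := ⟨_, rfl⟩
  refine ⟨fun x => (σ.symm (e x) : ℕ), ?_, fun x => (σ.symm (e x)).2, fun x y hxy => ?_⟩
  · intro x y hxy
    exact e.injective (σ.symm.injective (Fin.ext hxy))
  · have h1 := Tuple.monotone_sort (h ∘ e.symm)
    rw [← hσ] at h1
    have h2 : σ.symm (e x) ≤ σ.symm (e y) := hxy
    have h3 := h1 h2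
    simp only [Function.comp, Equiv.apply_symm_apply, Equiv.symm_apply_apply] at h3
    exact h3

/-- the tail in terms of the difference of the heights -/
lemma tail_num4 {C R t : ℝ} (hC : 1 ≤ C) (hR : 1 ≤ R) (ht : 0 ≤ t) :
    17 * Real.exp (-(t / (9 * (C * (R + √t) + 1)))) ≤
      17 * 40320 * (54 * (C * R)) ^ 8 * (1 / (1 + t) ^ 4) := by
  have hCR : 1 ≤ C * R := by nlinarith
  have hpow : (1 : ℝ) ≤ (54 * (C * R)) ^ 8 := one_le_pow₀ (by linarith)
  rcases lt_or_ge t 1 with h | h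
  · have h1 : Real.exp (-(t / (9 * (C * (R + √t) + 1)))) ≤ 1 := by
      rw [Real.exp_le_one_iff]
      have : 0 ≤ t / (9 * (C * (R + √t) + 1)) := by positivity
      linarith
    have h2 : (1 + t) ^ 4 ≤ 16 := by
      have : (1 + t) ^ 4 ≤ 2 ^ 4 := pow_le_pow_left₀ (by linarith) (by linarith) 4
      linarith
    have h3 : (1 : ℝ) / 16 ≤ 1 / (1 + t) ^ 4 := one_div_le_one_div_of_le (by positivity) h2
    have h4 : 17 * 40320 * 1 * ((1 : ℝ) / 16) ≤
        17 * 40320 * (54 * (C * R)) ^ 8 * (1 / (1 + t) ^ 4) := by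
      gcongr
    linarith
  · obtain ⟨s, hs⟩ : ∃ s : ℝ, s = √(1 + t) := ⟨_, rfl⟩
    have hs2 : s ^ 2 = 1 + t := by rw [hs]; exact Real.sq_sqrt (by linarith)
    have hs1 : 1 ≤ s := by rw [hs]; exact Real.one_le_sqrt.mpr (by linarith)
    have hst : √t ≤ s := by rw [hs]; exact Real.sqrt_le_sqrt (by linarith)
    have hst0 : 0 ≤ √t := Real.sqrt_nonneg _
    obtain ⟨y, hy⟩ : ∃ y : ℝ, y = t / (9 * (C * (R + √t) + 1)) := ⟨_, rfl⟩
    have hden : 9 * (C * (R + √t) + 1) ≤ 27 * (C * R) * s := by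
      have e1 : C * R ≤ C * R * s := le_mul_of_one_le_right (by linarith) hs1
      have e2 : C * √t ≤ C * R * s := by
        calc C * √t ≤ C * s := by gcongr
          _ ≤ C * R * s := by nlinarith
      have e3 : 1 ≤ C * R * s := by nlinarith
      nlinarith
    have hden0 : 0 < 9 * (C * (R + √t) + 1) := by positivity
    have hy1 : s / (54 * (C * R)) ≤ y := by
      rw [hy, div_le_div_iff₀ (by positivity) hden0]
      calc s * (9 * (C * (R + √t) + 1)) ≤ s * (27 * (C * R) * s) := by gcongr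
        _ = 27 * (C * R) * (1 + t) := by rw [← hs2]; ring
        _ ≤ t * (54 * (C * R)) := by nlinarith
    have hy0 : 0 < y := lt_of_lt_of_le (by positivity) hy1
    rw [← hy]
    have h1 := Real.pow_div_factorial_le_exp y hy0.le 8
    have h2 : ((Nat.factorial 8 : ℕ) : ℝ) = 40320 := by norm_num [Nat.factorial]
    rw [h2] at h1
    have h3 : Real.exp (-y) ≤ 40320 / y ^ 8 := by
      rw [Real.exp_neg, inv_eq_one_div, div_le_div_iff₀ (Real.exp_pos _) (by positivity)]
      rw [div_le_iff₀ (by norm_num)] at h1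
      linarith
    have h4 : 40320 / y ^ 8 ≤ 40320 / (s / (54 * (C * R))) ^ 8 := by
      gcongr
    have h5 : 40320 / (s / (54 * (C * R))) ^ 8 = 40320 * (54 * (C * R)) ^ 8 * (1 / (1 + t) ^ 4) := by
      rw [← hs2]
      have : s ≠ 0 := by linarith
      field_simp
    calc 17 * Real.exp (-y) ≤ 17 * (40320 * (54 * (C * R)) ^ 8 * (1 / (1 + t) ^ 4)) := by
          rw [← h5]
          have := h3.trans h4
          linarith
      _ = _ := by ring

/-- an element of larger height rarely comes before an element of smaller height -/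
lemma wrong_le {α : Type} [Fintype α] [PartialOrder α] {M : ℕ} (hStd : Std α M) {C R : ℝ}
    (hC : 1 ≤ C) (hR : 1 ≤ R) (x z : α) (hxz : hh M x ≤ hh M z)
    (hF : tau M x z ≤ C * (R + √|hh M z - hh M x|)) :
    pr α M (fun f => f z < f x) ≤
      17 * 40320 * (54 * (C * R)) ^ 8 * (1 / (1 + (hh M z - hh M x)) ^ 4) := by
  have h0 : 0 ≤ hh M z - hh M x := by linarith
  have h1 := hStd.tail x z (hh M z - hh M x) (C * (R + √|hh M z - hh M x|)) |hh M z - hh M x| hF
  rw [abs_of_nonneg h0] at h1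
  have h2 := tail_num4 hC hR h0
  have hK : 0 < unit α M := unit_pos
  refine (pr_mono fun f _ hf => ?_).trans (h1.trans h2)
  have h3 : dd M x z f < 0 := by
    unfold dd
    refine div_neg_of_neg_of_pos ?_ hK
    have : (f z : ℝ) < f x := by exact_mod_cast hf
    linarith
  rw [abs_of_nonpos (by linarith)]
  linarith

/-- posets without balanced pairs have an enumeration with rare discordances -/
theorem exists_dis : ∃ G B₀ D : ℝ, 1 ≤ G ∧ 1 ≤ B₀ ∧ 1 ≤ D ∧ ∀ ε : ℝ, 0 < ε → ε ≤ 1 / 2 →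
      ∀ (P : Type) [Fintype P] [PartialOrder P] [Nonempty P],
      (∀ x y : P, x ≠ y → (1 / 2 - ε) * (eN P : ℝ) ≤ eP P x y →
        (eP P y x : ℝ) < (1 / 2 - ε) * (eN P : ℝ)) →
      ∃ (idx : P → ℕ) (K : ℕ), Dis (fun x y : P => x < y) idx K ∧
        (K : ℝ) ≤ G * (scl B₀ ε + D) ^ 12 := by
  obtain ⟨C, B₀, D, hC, hB₀, hD, hS⟩ := scale
  have hC0 : 0 < C := by linarith
  refine ⟨17 * 40320 * 54 ^ 8 * C ^ 12 + 3, B₀, D, ?_, hB₀, hD,
    fun ε hε hε2 P _ _ _ hcon => ?_⟩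
  · have : (0 : ℝ) ≤ 17 * 40320 * 54 ^ 8 * C ^ 12 := by positivity
    linarith
  obtain ⟨Q, instF, instP, ι, M, hinj, hStd, hcard, hprob, hF1, hF2⟩ := hS ε hε hε2 P hcon
  obtain ⟨R, hR⟩ : ∃ R : ℝ, R = scl B₀ ε + D := ⟨_, rfl⟩
  have hs1 := scl_ge hB₀ hε hε2
  have hR1 : 1 ≤ R := by rw [hR]; linarith
  rw [← hR] at hF1 hF2 ⊢
  have hne := hStd.ne
  obtain ⟨idx, hidx1, hidx2, hidx3⟩ := exists_idx fun x : P => hh M (ι x)
  obtain ⟨κ₀, hκ₀⟩ : ∃ κ₀ : ℝ, κ₀ = 17 * 40320 * (54 * (C * R)) ^ 8 * (C * R) ^ 4 + 2 := ⟨_, rfl⟩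
  have hCR : 1 ≤ C * R := by nlinarith
  have hκ₀1 : 1 ≤ κ₀ := by
    rw [hκ₀]
    have : (0 : ℝ) ≤ 17 * 40320 * (54 * (C * R)) ^ 8 * (C * R) ^ 4 := by positivity
    linarith
  refine ⟨idx, ⌈κ₀⌉₊, ⟨hidx1, hidx2, ?_, ?_, ?_⟩, ?_⟩
  · exact Nat.one_le_ceil_iff.mpr (by linarith)
  · rw [← card_pos, card_LE]
    exact eN_pos P
  · intro x z hxz
    have heN : (0 : ℝ) < eN P := by exact_mod_cast eN_pos P
    rw [card_LE, card_LE_lt, ← div_le_iff₀ heN]
    obtain ⟨d, hd⟩ : ∃ d : ℝ, d = (idx z : ℝ) - idx x := ⟨_, rfl⟩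
    have hd0 : 0 < d := by
      rw [hd]
      have : (idx x : ℝ) < idx z := by exact_mod_cast hxz
      linarith
    rw [← hd]
    have hxz' : ι z ≠ ι x := fun h => by
      rw [hinj h] at hxz
      exact lt_irrefl _ hxz
    have h1 := eP_le_pr hne (ι z) (ι x) hxz'
    rw [hprob] at h1
    have h2 := wrong_le hStd hC hR1 (ι x) (ι z) (hidx3 x z hxz.le) (hF1 _ _)
    obtain ⟨t, ht⟩ : ∃ t : ℝ, t = hh M (ι z) - hh M (ι x) := ⟨_, rfl⟩
    have ht0 : 0 ≤ t := by
      rw [ht]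
      have := hidx3 x z hxz.le
      linarith
    rw [← ht] at h2
    have h3 : 1 + d ≤ C * R * (1 + t) := by
      have h4 := hF2 (ι x) (t + R) (by linarith)
      have h5 : (univ.filter fun y : P => idx x ≤ idx y ∧ idx y ≤ idx z).card ≤
          (univ.filter fun y : Q => |hh M y - hh M (ι x)| ≤ t + R).card := by
        refine card_le_card_of_injOn ι ?_ hinj.injOn
        intro y hy
        obtain ⟨_, h6, h7⟩ := mem_filter.mp (mem_coe.mp hy)
        rw [mem_coe, mem_filter]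
        have h8 := hidx3 x y h6
        have h9 := hidx3 y z h7
        refine ⟨mem_univ _, ?_⟩
        rw [abs_of_nonneg (by linarith), ht]
        linarith
      have h6 : (Icc (idx x) (idx z)).card ≤
          (univ.filter fun y : P => idx x ≤ idx y ∧ idx y ≤ idx z).card := by
        refine (card_le_card (t := (univ.filter fun y : P => idx x ≤ idx y ∧ idx y ≤ idx z).image idx)
          ?_).trans card_image_le
        intro s hs
        rw [mem_Icc] at hs
        obtain ⟨y, rfl⟩ := exists_pos hidx1 hidx2 (lt_of_le_of_lt hs.2 (hidx2 z))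
        exact mem_image_of_mem _ (mem_filter.mpr ⟨mem_univ _, hs⟩)
      rw [Nat.card_Icc] at h6
      have h7 : (idx z : ℝ) + 1 - idx x ≤
          ((univ.filter fun y : Q => |hh M y - hh M (ι x)| ≤ t + R).card : ℝ) := by
        have h8 : idx z + 1 - idx x ≤
          (univ.filter fun y : Q => |hh M y - hh M (ι x)| ≤ t + R).card := h6.trans h5
        have h9 : ((idx z + 1 - idx x : ℕ) : ℝ) ≤
          ((univ.filter fun y : Q => |hh M y - hh M (ι x)| ≤ t + R).card : ℝ) := by exact_mod_cast h8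
        rw [Nat.cast_sub (by omega)] at h9
        push_cast at h9
        exact h9
      have h8 : t + R ≤ R * (1 + t) := by nlinarith
      calc 1 + d = (idx z : ℝ) + 1 - idx x := by rw [hd]; ring
        _ ≤ C * (t + R) := h7.trans h4
        _ ≤ C * (R * (1 + t)) := by gcongr
        _ = _ := by ring
    have h4 : 1 / (1 + t) ^ 4 ≤ (C * R) ^ 4 * (1 / (1 + d) ^ 4) := by
      rw [mul_one_div, div_le_div_iff₀ (by positivity) (by positivity), one_mul, ← mul_pow]
      exact pow_le_pow_left₀ (by linarith) h3 4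
    have h5 : pr Q M (fun f => ¬ Function.Injective f) ≤ 1 / (1 + d) ^ 4 := by
      refine hStd.ninj.trans (one_div_le_one_div_of_le (by positivity) ?_)
      refine pow_le_pow_left₀ (by linarith) ?_ 4
      have h6 : (idx z : ℝ) ≤ Fintype.card P := by exact_mod_cast (hidx2 z).le
      have h7 : (Fintype.card P : ℝ) ≤ Fintype.card Q := by exact_mod_cast hcard
      have h8 : (0 : ℝ) ≤ idx x := by positivity
      rw [hd]
      linarith
    have h6 : 17 * 40320 * (54 * (C * R)) ^ 8 * (1 / (1 + t) ^ 4) ≤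
        17 * 40320 * (54 * (C * R)) ^ 8 * ((C * R) ^ 4 * (1 / (1 + d) ^ 4)) :=
      mul_le_mul_of_nonneg_left h4 (by positivity)
    have h7 : κ₀ ≤ ⌈κ₀⌉₊ := Nat.le_ceil κ₀
    calc (eP P z x : ℝ) / eN P
        ≤ 17 * 40320 * (54 * (C * R)) ^ 8 * ((C * R) ^ 4 * (1 / (1 + d) ^ 4)) +
          2 * (1 / (1 + d) ^ 4) := by linarith
      _ = κ₀ / (1 + d) ^ 4 := by rw [hκ₀]; ring
      _ ≤ _ := div_le_div_of_nonneg_right h7 (by positivity)
  · have h1 : (⌈κ₀⌉₊ : ℝ) < κ₀ + 1 := Nat.ceil_lt_add_one (by linarith)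
    have h2 : (1 : ℝ) ≤ R ^ 12 := one_le_pow₀ hR1
    calc (⌈κ₀⌉₊ : ℝ) ≤ κ₀ + 1 := h1.le
      _ = 17 * 40320 * 54 ^ 8 * C ^ 12 * R ^ 12 + 3 * 1 := by rw [hκ₀]; ring
      _ ≤ 17 * 40320 * 54 ^ 8 * C ^ 12 * R ^ 12 + 3 * R ^ 12 := by linarith
      _ = _ := by ring

end Pool.Agent.Y491.ID
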